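import Pool.Agent.KS6_94.UB.Build

/-!
# A universal branch set for branched covers of `ℝ^m` by open manifolds and pseudomanifolds

For every `m ≥ 2` there is one explicit closed polyhedron `B_m ⊆ ℝ^m` of dimension `m - 2` such that
every noncompact orientable PL `m`-manifold, and even every noncompact orientable pseudomanifold of
dimension `m` (locally finite, strongly connected), admits a branched cover of degree `ℵ₀` onto
`ℝ^m` whose branch set is contained in `B_m`. Here `B_m` is the codimension two skeleton of the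
polyhedron `Q = {x ∈ ℝ^m | x ≥ 0, ∑ x ≥ 1}`.
-/

open Set Topology

namespace Pool.Agent.Results.MP_120ab6_gt.UniversalBranchSet

open Pool.Agent.TH632 Pool.Agent.KS6_94.UB

universe u

/-- The codimension two skeleton of the polyhedron `Q = {x ∈ ℝ^m | x ≥ 0, ∑ x ≥ 1}`: the points of
`Q` at which at least two of the `m + 1` inequalities are equalities. -/
def branchSet (m : ℕ) : Set (Fin m → ℝ) :=
  {x | (∀ i, 0 ≤ x i) ∧ 1 ≤ ∑ i, x i ∧
    ((∃ i j, i ≠ j ∧ x i = 0 ∧ x j = 0) ∨ (∑ i, x i = 1 ∧ ∃ i, x i = 0))}

/-- `f : |K| → ℝ^m` is a branched cover of degree `d` with branch set contained in `B`: it is PL and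
non-degenerate (its fibres are discrete, that is, it collapses no segment), it is onto, and it is a
covering map with fibres of cardinality `d` over the complement of `B`. Moreover `f` is complete:
every point has a compact neighbourhood `C` such that all connected components of `f ⁻¹ C` are
compact. -/
structure IsBranchedCoverAlong {V : Type u} (m : ℕ) (K : PreAbstractSimplicialComplex V)
    (B : Set (Fin m → ℝ)) (d : Cardinal.{u}) (f : realization K → (Fin m → ℝ)) : Prop where
  pl : IsPL K f
  nondegenerate : ∀ y, DiscreteTopology (f ⁻¹' {y})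
  surjective : Function.Surjective f
  covering : IsCoveringMapOn f Bᶜ
  degree : ∀ y, y ∉ B → Cardinal.mk (f ⁻¹' {y}) = d
  complete : ∀ y, ∃ C ∈ 𝓝 y, IsCompact C ∧ ∀ x ∈ f ⁻¹' C,
    IsCompact (connectedComponentIn (f ⁻¹' C) x)

theorem branchSet_eq {m : ℕ} (hm : 2 ≤ m) : branchSet m = Bset m := by
  have hm' : (0 : ℝ) < m := by exact_mod_cast (by omega : 0 < m)
  have h0 : ∀ x : Fin m → ℝ, 0 ≤ Lc x 0 ↔ 1 ≤ ∑ i, x i := by
    intro x
    rw [Lc_zero, le_div_iff₀ hm', zero_mul, sub_nonneg]
  have h0' : ∀ x : Fin m → ℝ, Lc x 0 = 0 ↔ ∑ i, x i = 1 := by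
    intro x
    rw [Lc_zero, div_eq_zero_iff, sub_eq_zero]
    exact or_iff_left hm'.ne'
  ext x
  simp only [branchSet, Bset, mem_ofPred_eq]
  constructor
  · rintro ⟨h1, h2, h3⟩
    refine ⟨?_, ?_⟩
    · intro k
      refine Fin.cases ((h0 x).2 h2) (fun i => ?_) k
      rw [Lc_succ]
      exact h1 i
    · rcases h3 with ⟨i, j, hij, hi, hj⟩ | ⟨h3, i, hi⟩
      · exact ⟨i.succ, j.succ, fun h => hij (Fin.succ_injective _ h), hi, hj⟩
      · exact ⟨0, i.succ, (Fin.succ_ne_zero i).symm, (h0' x).2 h3, hi⟩
  · rintro ⟨h1, i, j, hij, hi, hj⟩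
    refine ⟨fun i => h1 i.succ, (h0 x).1 (h1 0), ?_⟩
    revert hij hi hj
    refine Fin.cases ?_ (fun i => ?_) i
    · refine Fin.cases ?_ (fun j => ?_) j
      · intro h
        exact absurd rfl h
      · intro _ h2 h3
        exact Or.inr ⟨(h0' x).1 h2, j, h3⟩
    · refine Fin.cases ?_ (fun j => ?_) j
      · intro _ h2 h3
        exact Or.inr ⟨(h0' x).1 h3, i, h2⟩
      · intro h h2 h3
        exact Or.inl ⟨i, j, fun h' => h (by rw [h']), h2, h3⟩

/-- **A universal branch set.** Let `m ≥ 2`. The set `branchSet m` is a closed polyhedron of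
dimension `m - 2` (in particular not empty), all connected PL `m`-manifolds are pseudomanifolds, and
every noncompact orientable `m`-dimensional pseudomanifold has a branched cover of degree `ℵ₀` onto
`ℝ^m` with branch set contained in `branchSet m`. -/
theorem result (m : ℕ) (hm : 2 ≤ m) :
    IsSubpolyhedronOfDim (m - 2) (branchSet m) ∧
    (∀ (V : Type u) (K : PreAbstractSimplicialComplex V), IsPLManifold m K →
      ConnectedSpace (realization K) → IsPseudomanifold m K) ∧
    ∀ (V : Type u) (K : PreAbstractSimplicialComplex V), IsPseudomanifold m K →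
      IsOrientable m K → NoncompactSpace (realization K) →
      ∃ f : realization K → (Fin m → ℝ),
        IsBranchedCoverAlong m K (branchSet m) Cardinal.aleph0 f := by
  refine ⟨?_, fun V K hK hc => pseudomanifold_of_manifold hm hK, ?_⟩
  · rw [branchSet_eq hm]
    exact isSubpolyhedron_Bset hm
  · intro V K hK ho hn
    obtain ⟨f, h1, h2, h3, h4, h5, h6⟩ := of_data hm hK ho
    rw [← branchSet_eq hm] at h4 h5
    exact ⟨f, h1, h2, h3, h4, h5, h6⟩

end Pool.Agent.Results.MP_120ab6_gt.UniversalBranchSet
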